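import Mathlib
import Pool.Agent.W172.WL.Stm

set_option autoImplicit false

/-!
# The moment bound (project WL, MP_22f354_an)
-/

open MeasureTheory Set
open scoped ENNReal NNReal
open Pool.Agent.W172.WL

namespace Pool.Agent.W641.WL

lemma exists_c (b : ℕ) (α : ℝ) (hb : 2 ≤ b) (h0 : 0 < α) (p : ℕ) :
    ∃ c : ℕ, 1 ≤ c ∧ (p : ℝ) * (b : ℝ) ^ (-(α * ((c : ℝ) + 1))) / (1 - (b : ℝ) ^ (-α)) ≤
      1 / (b : ℝ) ^ 2 / 2 := by
  have hb1 : (1:ℝ) < b := by exact_mod_cast (by omega : 1 < b)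
  have hb0 : (0:ℝ) < b := by linarith
  set ρ : ℝ := (b:ℝ)^(-α) with hρ
  have hρ0 : 0 < ρ := Real.rpow_pos_of_pos hb0 _
  have hρ1 : ρ < 1 := Real.rpow_lt_one_of_one_lt_of_neg hb1 (by linarith)
  have hpow : ∀ c : ℕ, (b : ℝ) ^ (-(α * ((c : ℝ) + 1))) = ρ ^ (c + 1) := by
    intro c
    rw [hρ, ← Real.rpow_natCast, ← Real.rpow_mul hb0.le]
    congr 1
    push_cast; ring
  have hlim : Filter.Tendsto (fun c : ℕ => (p:ℝ) * ρ ^ (c+1) / (1 - ρ)) Filter.atTop (nhds 0) := by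
    have h1 : Filter.Tendsto (fun c : ℕ => ρ ^ (c+1)) Filter.atTop (nhds 0) :=
      (tendsto_pow_atTop_nhds_zero_of_lt_one hρ0.le hρ1).comp (Filter.tendsto_add_atTop_nat 1)
    have h2 := (h1.const_mul (p:ℝ)).div_const (1 - ρ)
    simpa using h2
  have hpos : (0:ℝ) < 1 / (b:ℝ)^2/2 := by positivity
  obtain ⟨c, hc, hc1⟩ :=
    ((hlim.eventually (gt_mem_nhds hpos)).and (Filter.eventually_ge_atTop 1)).exists
  exact ⟨c, hc1, by rw [hpow]; exact hc.le⟩

lemma vol_bound (b : ℕ) (α : ℝ) (hb : 2 ≤ b) (h0 : 0 < α) (h1 : α < 1) (p c L n : ℕ)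
    (hn : n ≤ mL α L) :
    (((L + 1) * b * (2 * p) * (n + L + c + 1) : ℕ) : ℝ) ^ (4 * p) *
        (b : ℝ) ^ (-((p : ℝ) * (L + l1 α L))) ≤
      ((2 * p * b * ((th α + 1) / (1 - α) + 2 + c)) ^ (4 * p) * (b:ℝ) ^ p) *
        ((L:ℝ) + 1) ^ (8 * p) * (b:ℝ) ^ (-((p:ℝ) * (2 - α) * L)) := by
  have hb1 : (1:ℝ) < b := by exact_mod_cast (by omega : 1 < b)
  have hb0 : (0:ℝ) < b := by linarith
  have hth : 0 < th α := by unfold th; linarith
  have h1a : 0 < 1 - α := by linarith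
  have hA0 : 0 ≤ (th α + 1) / (1 - α) := by positivity
  have hn1 : (n:ℝ) ≤ (th α + 1) / (1 - α) * (L + 1) + 1 := by
    have h2 : (n:ℝ) ≤ (mL α L : ℝ) := by exact_mod_cast hn
    have h3 : (mL α L : ℝ) < (th α + 1) * (L + 1) / (1 - α) + 1 := by
      unfold mL
      apply Nat.ceil_lt_add_one
      positivity
    have h4 : (th α + 1) * ((L:ℝ) + 1) / (1 - α) = (th α + 1) / (1 - α) * (L + 1) := by ring
    linarith
  have hsum : ((n:ℝ) + L + c + 1) ≤ ((th α + 1) / (1 - α) + 2 + c) * (L + 1) := by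
    have hL : (0:ℝ) ≤ L := Nat.cast_nonneg _
    have hc : (0:ℝ) ≤ c := Nat.cast_nonneg _
    nlinarith [mul_nonneg hc hL]
  have hfirst : (((L + 1) * b * (2 * p) * (n + L + c + 1) : ℕ) : ℝ) ^ (4 * p) ≤
      (2 * p * b * ((th α + 1) / (1 - α) + 2 + c)) ^ (4 * p) * ((L:ℝ) + 1) ^ (8 * p) := by
    have h5 : (((L + 1) * b * (2 * p) * (n + L + c + 1) : ℕ) : ℝ) ≤
        (2 * p * b * ((th α + 1) / (1 - α) + 2 + c)) * ((L:ℝ) + 1) ^ 2 := by
      push_cast
      have h6 : (0:ℝ) ≤ ((L:ℝ) + 1) * b * (2 * p) := by positivity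
      calc ((L:ℝ) + 1) * b * (2 * p) * (n + L + c + 1)
          ≤ ((L:ℝ) + 1) * b * (2 * p) * (((th α + 1) / (1 - α) + 2 + c) * (L + 1)) :=
            mul_le_mul_of_nonneg_left hsum h6
        _ = _ := by ring
    calc (((L + 1) * b * (2 * p) * (n + L + c + 1) : ℕ) : ℝ) ^ (4 * p)
        ≤ ((2 * p * b * ((th α + 1) / (1 - α) + 2 + c)) * ((L:ℝ) + 1) ^ 2) ^ (4 * p) :=
          pow_le_pow_left₀ (Nat.cast_nonneg _) h5 _
      _ = _ := by
          rw [mul_pow, ← pow_mul]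
          congr 2
          ring
  have hsecond : (b : ℝ) ^ (-((p : ℝ) * (L + l1 α L))) ≤
      (b:ℝ) ^ p * (b:ℝ) ^ (-((p:ℝ) * (2 - α) * L)) := by
    rw [← Real.rpow_natCast (b:ℝ) p, ← Real.rpow_add hb0]
    apply Real.rpow_le_rpow_of_exponent_le hb1.le
    have h7 : (1 - α) * L - 1 ≤ (l1 α L : ℝ) := by
      have := Nat.lt_floor_add_one ((1 - α) * (L:ℝ))
      unfold l1
      linarith
    have hp : (0:ℝ) ≤ p := Nat.cast_nonneg _
    nlinarith [mul_le_mul_of_nonneg_left h7 hp]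
  calc _ ≤ ((2 * p * b * ((th α + 1) / (1 - α) + 2 + c)) ^ (4 * p) * ((L:ℝ) + 1) ^ (8 * p)) *
        ((b:ℝ) ^ p * (b:ℝ) ^ (-((p:ℝ) * (2 - α) * L))) := by
        apply mul_le_mul hfirst hsecond (by positivity)
        positivity
    _ = _ := by ring

/-- The bound by the characteristic function. -/
lemma char_bound (hCHAR : S_CHAR) (hLIN : S_LIN) (b : ℕ) (α : ℝ) (hb : 2 ≤ b) (h0 : 0 < α)
    (h1 : α < 1) (p N n z : ℕ) (g : ℝ → ℝ) (hg : LipPer g) (ξ : ℝ) (u : Fin (2 * p) → ℝ)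
    (l i : ℕ) (hi : i < b ^ l) (τ : ℝ) (hτ : 0 < τ)
    (hge : τ ≤ |ξ| * (wt b α l * |∑ a, sg p a * Bc b α n z l i (u a)|)) :
    ‖∫ ω : Om, Complex.exp (Complex.I * ((∑ a, sg p a *
      (ξ * F b α (fun x => g x + Phi b α N ω x) n z (u a)) : ℝ) : ℂ)) ∂Pr‖ ≤ (2 / τ) ^ N := by
  classical
  have hlin := fun a => hLIN b α N n z hb h0 h1 g hg (u a)
  set s : Idx → ℝ := fun j => ξ * ∑ a, sg p a * cf b α N n z (u a) j with hs
  have hsum1 : ∀ a, Summable (fun j : Idx => cf b α N n z (u a) j) := fun a =>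
    (hlin a).1.of_abs
  have habs : Summable (fun j => |s j|) := by
    apply Summable.abs
    apply Summable.mul_left
    apply summable_sum
    intro a _
    exact (hsum1 a).mul_left _
  have hω : ∀ (a : Fin (2 * p)) (ω : Om), Summable (fun j : Idx => cf b α N n z (u a) j * (ω j : ℝ)) := by
    intro a ω
    refine Summable.of_norm_bounded (hlin a).1 fun j => ?_
    rw [norm_mul, Real.norm_eq_abs, Real.norm_eq_abs]
    have h2 : |((ω j : unitInterval) : ℝ)| ≤ 1 := by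
      rw [abs_of_nonneg (ω j).2.1]; exact (ω j).2.2
    calc |cf b α N n z (u a) j| * |((ω j : unitInterval) : ℝ)| ≤ |cf b α N n z (u a) j| * 1 :=
          mul_le_mul_of_nonneg_left h2 (abs_nonneg _)
      _ = _ := mul_one _
  have hexp : ∀ ω : Om, (∑ a, sg p a * (ξ * F b α (fun x => g x + Phi b α N ω x) n z (u a))) =
      (∑ a, sg p a * (ξ * F b α g n z (u a))) + ∑' j : Idx, s j * (ω j : ℝ) := by
    intro ω
    have e1 : ∑' j : Idx, s j * (ω j : ℝ) =
        ∑ a, sg p a * (ξ * ∑' j : Idx, cf b α N n z (u a) j * (ω j : ℝ)) := by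
      have e2 : ∀ a, sg p a * (ξ * ∑' j : Idx, cf b α N n z (u a) j * (ω j : ℝ)) =
          ∑' j : Idx, sg p a * (ξ * (cf b α N n z (u a) j * (ω j : ℝ))) := by
        intro a
        rw [tsum_mul_left, tsum_mul_left]
      simp_rw [e2]
      rw [← Summable.tsum_finsetSum]
      · apply tsum_congr
        intro j
        simp only [hs]
        rw [Finset.mul_sum, Finset.sum_mul]
        refine Finset.sum_congr rfl fun a _ => ?_
        ring
      · intro a _
        exact ((hω a ω).mul_left _).mul_left _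
    rw [e1, ← Finset.sum_add_distrib]
    refine Finset.sum_congr rfl fun a _ => ?_
    rw [(hlin a).2 ω]
    ring
  set c0 : ℝ := ∑ a, sg p a * (ξ * F b α g n z (u a)) with hc0
  have hint : (∫ ω : Om, Complex.exp (Complex.I * ((∑ a, sg p a *
      (ξ * F b α (fun x => g x + Phi b α N ω x) n z (u a)) : ℝ) : ℂ)) ∂Pr) =
      Complex.exp (Complex.I * (c0 : ℂ)) *
        ∫ ω : Om, Complex.exp (Complex.I * ((∑' j : Idx, s j * (ω j : ℝ) : ℝ) : ℂ)) ∂Pr := by
    rw [← integral_const_mul]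
    refine integral_congr_ae (Filter.Eventually.of_forall fun ω => ?_)
    show Complex.exp (Complex.I * ((∑ a, sg p a *
      (ξ * F b α (fun x => g x + Phi b α N ω x) n z (u a)) : ℝ) : ℂ)) =
      Complex.exp (Complex.I * (c0 : ℂ)) *
        Complex.exp (Complex.I * ((∑' j : Idx, s j * (ω j : ℝ) : ℝ) : ℂ))
    rw [hexp ω, ← Complex.exp_add]
    congr 1
    rw [Complex.ofReal_add]
    ring
  rw [hint, norm_mul, Complex.norm_exp_I_mul_ofReal, one_mul]
  set J : Finset Idx := (Finset.range N).image (fun r => ((l, i, r) : Idx)) with hJ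
  have hJc : J.card = N := by
    rw [hJ, Finset.card_image_of_injective, Finset.card_range]
    intro r r' hrr
    simp only [Prod.mk.injEq, true_and] at hrr
    exact hrr
  have := hCHAR s habs J τ hτ ?_
  · rwa [hJc] at this
  · intro j hj
    rw [hJ, Finset.mem_image] at hj
    obtain ⟨r, hr, rfl⟩ := hj
    rw [Finset.mem_range] at hr
    have hcf : ∀ a, cf b α N n z (u a) (l, i, r) = wt b α l * Bc b α n z l i (u a) := by
      intro a
      unfold cf
      rw [if_pos ⟨hi, hr⟩]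
    have hw : 0 ≤ wt b α l := by unfold wt; positivity
    have hsj : s (l, i, r) = ξ * (wt b α l * ∑ a, sg p a * Bc b α n z l i (u a)) := by
      simp only [hs]
      congr 1
      rw [Finset.mul_sum]
      refine Finset.sum_congr rfl fun a _ => ?_
      rw [hcf]; ring
    rw [hsj, abs_mul, abs_mul, abs_of_nonneg hw]
    exact hge

theorem mom (hCHAR : S_CHAR) (hLIN : S_LIN) (hMOM0 : S_MOM0) (hPART : S_PART) (hVOL : S_VOL)
    (hCONTF : S_CONTF) : S_MOM := by
  intro b α hb h0 h1 p hp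
  have hb1 : (1:ℝ) < b := by exact_mod_cast (by omega : 1 < b)
  have hb0 : (0:ℝ) < b := by linarith
  obtain ⟨c, hc1, hc⟩ := exists_c b α hb h0 p
  have hη : 0 < et α := by unfold et; linarith
  obtain ⟨N, hN⟩ := exists_nat_ge ((p:ℝ) * (2 - α) / et α)
  rw [div_le_iff₀ hη] at hN
  set C2 : ℝ := (2 * p * b * ((th α + 1) / (1 - α) + 2 + c)) ^ (4 * p) * (b:ℝ) ^ p with hC2
  refine ⟨N, (4 * (b:ℝ) ^ 2) ^ N + C2, ?_⟩
  intro g hg L n z hn hz ξ hξ
  set Hf : Om → ℝ → ℝ := fun ω u => ξ * F b α (fun x => g x + Phi b α N ω x) n z u with hHf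
  have hmeas : Measurable (Function.uncurry Hf) :=
    (continuous_const.mul (hCONTF b α N n z hb h0 h1 g hg)).measurable
  have hM := hMOM0 Hf hmeas p
  refine le_trans hM ?_
  set D0 : Set (Fin (2 * p) → ℝ) := {u | ∀ a, u a ∈ Ico (0:ℝ) 1} with hD0
  have hD0pi : D0 = Set.pi univ (fun _ : Fin (2 * p) => Ico (0:ℝ) 1) := by
    ext u; simp [hD0]
  have hD0m : MeasurableSet D0 := by
    rw [hD0pi]
    exact MeasurableSet.univ_pi fun _ => measurableSet_Ico
  have hD0v : volume D0 = 1 := by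
    rw [hD0pi, volume_pi_pi]
    simp
  have hDD : ({u : Fin (2 * p) → ℝ | ∀ a, u a ∈ Icc (0:ℝ) 1} : Set _) =ᵐ[volume] D0 := by
    have h2 := (Measure.univ_pi_Ico_ae_eq_Icc (μ := fun _ : Fin (2 * p) => (volume : Measure ℝ))
      (f := fun _ => 0) (g := fun _ => 1)).symm
    have h3 : ({u : Fin (2 * p) → ℝ | ∀ a, u a ∈ Icc (0:ℝ) 1} : Set _) =
        Icc (fun _ => (0:ℝ)) (fun _ => 1) := by
      ext u
      simp [Set.mem_Icc, Pi.le_def, forall_and]
    rw [h3, hD0pi]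
    exact h2
  rw [setIntegral_congr_set hDD]
  set K : ℝ := (4 * (b:ℝ) ^ 2) ^ N * (b:ℝ) ^ (-((p : ℝ) * (2 - α) * L)) with hK
  have hK0 : 0 ≤ K := by positivity
  set S : Set (Fin (2 * p) → ℝ) := {u : Fin (2 * p) → ℝ | (∀ a, u a ∈ Ico (0:ℝ) 1) ∧
    (∀ a, StrAt b n z c n L u a) ∧ (∀ a, StrAt b n z c (n + L) (l1 α L) u a)} with hS
  set T : Set (Fin (2 * p) → ℝ) := toMeasurable volume S with hT
  have hTm : MeasurableSet T := measurableSet_toMeasurable _ _
  have hl1 : l1 α L ≤ L := by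
    unfold l1
    apply Nat.floor_le_of_le
    have hL : (0:ℝ) ≤ L := Nat.cast_nonneg _
    nlinarith
  have hSv := hVOL b p c L (l1 α L) n z hb hl1 hz
  have hTv : volume T = volume S := measure_toMeasurable _
  have hvb := vol_bound b α hb h0 h1 p c L n hn
  set V : ℝ := (((L + 1) * b * (2 * p) * (n + L + c + 1) : ℕ) : ℝ) ^ (4 * p) *
        (b : ℝ) ^ (-((p : ℝ) * (L + l1 α L))) with hV
  have hV0 : 0 ≤ V := by positivity
  have hTr : volume.real T ≤ V := by
    rw [Measure.real, hTv]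
    exact ENNReal.toReal_le_of_le_ofReal hV0 hSv
  have hTfin : volume T ≠ ⊤ := by
    rw [hTv]
    exact ne_top_of_le_ne_top ENNReal.ofReal_ne_top hSv
  have hfin : IsFiniteMeasure (volume.restrict D0) := ⟨by
    rw [Measure.restrict_apply_univ, hD0v]; exact ENNReal.one_lt_top⟩
  -- pointwise bounds
  have hI1 : ∀ u : Fin (2 * p) → ℝ,
      ‖∫ ω : Om, Complex.exp (Complex.I * ((∑ a, sg p a * Hf ω (u a) : ℝ) : ℂ)) ∂Pr‖ ≤ 1 := by
    intro u
    have := norm_integral_le_of_norm_le_const (μ := Pr) (C := 1)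
      (f := fun ω : Om => Complex.exp (Complex.I * ((∑ a, sg p a * Hf ω (u a) : ℝ) : ℂ)))
      (Filter.Eventually.of_forall fun ω => by rw [Complex.norm_exp_I_mul_ofReal])
    simpa using this
  have hI2 : ∀ u ∈ D0, u ∉ S →
      ‖∫ ω : Om, Complex.exp (Complex.I * ((∑ a, sg p a * Hf ω (u a) : ℝ) : ℂ)) ∂Pr‖ ≤ K := by
    intro u hu huS
    have hex : ∃ l i : ℕ, l ≤ L ∧ i < b ^ l ∧ (b : ℝ) ^ (et α * L - 2) / 2 ≤
        |ξ| * (wt b α l * |∑ a, sg p a * Bc b α n z l i (u a)|) := by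
      by_contra hcon
      push Not at hcon
      apply huS
      exact ⟨hu, hPART b p c α hb h0 h1 hp hc1 hc L n z hz ξ hξ u hu fun l i hl hi => hcon l i hl hi⟩
    obtain ⟨l, i, -, hi, hge⟩ := hex
    have hτ : (0:ℝ) < (b : ℝ) ^ (et α * L - 2) / 2 := by positivity
    refine (char_bound hCHAR hLIN b α hb h0 h1 p N n z g hg ξ u l i hi _ hτ hge).trans ?_
    have e1 : (2:ℝ) / ((b : ℝ) ^ (et α * L - 2) / 2) = 4 * (b:ℝ) ^ 2 * (b:ℝ) ^ (-(et α * L)) := by
      rw [Real.rpow_sub hb0, Real.rpow_neg hb0.le]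
      have h3 : (b:ℝ) ^ (2:ℝ) = (b:ℝ) ^ (2:ℕ) := by
        rw [← Real.rpow_natCast]; norm_num
      rw [h3]
      have h4 : (b:ℝ) ^ (et α * L) ≠ 0 := (Real.rpow_pos_of_pos hb0 _).ne'
      field_simp
      ring
    rw [e1, mul_pow, hK]
    apply mul_le_mul_of_nonneg_left _ (by positivity)
    rw [← Real.rpow_natCast, ← Real.rpow_mul hb0.le]
    apply Real.rpow_le_rpow_of_exponent_le hb1.le
    have hL : (0:ℝ) ≤ L := Nat.cast_nonneg _
    nlinarith [mul_le_mul_of_nonneg_right hN hL]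
  have hmain : ∫ u in D0,
      ‖∫ ω : Om, Complex.exp (Complex.I * ((∑ a, sg p a * Hf ω (u a) : ℝ) : ℂ)) ∂Pr‖ ≤ K + V := by
    calc _ ≤ ∫ u in D0, (K + T.indicator (fun _ => (1:ℝ)) u) := by
          apply integral_mono_of_nonneg
          · exact Filter.Eventually.of_forall fun u => norm_nonneg _
          · exact (integrable_const K).add ((integrable_const (1:ℝ)).indicator hTm)
          · refine (ae_restrict_iff' hD0m).2 (Filter.Eventually.of_forall fun u hu => ?_)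
            by_cases huS : u ∈ S
            · have huT : u ∈ T := subset_toMeasurable _ _ huS
              simp only [Set.indicator_of_mem huT]
              have := hI1 u
              linarith
            · have h5 := hI2 u hu huS
              have h6 : 0 ≤ T.indicator (fun _ => (1:ℝ)) u :=
                Set.indicator_nonneg (fun _ _ => zero_le_one) u
              linarith
      _ = K + (volume.restrict D0).real T := by
          rw [integral_add (integrable_const K) ((integrable_const (1:ℝ)).indicator hTm)]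
          congr 1
          · rw [integral_const, Measure.real, Measure.restrict_apply_univ, hD0v]
            simp
          · rw [integral_indicator_const _ hTm]
            simp
      _ ≤ K + V := by
          have h7 : (volume.restrict D0).real T ≤ volume.real T := by
            apply ENNReal.toReal_mono hTfin
            exact Measure.restrict_apply_le _ _
          linarith
  refine hmain.trans ?_
  have hL1 : (1:ℝ) ≤ ((L:ℝ) + 1) ^ (8 * p) := by
    apply one_le_pow₀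
    have hL : (0:ℝ) ≤ L := Nat.cast_nonneg _
    linarith
  have hKle : K ≤ (4 * (b:ℝ) ^ 2) ^ N * ((L:ℝ) + 1) ^ (8 * p) *
      (b:ℝ) ^ (-((p : ℝ) * (2 - α) * L)) := by
    have h8 : 0 ≤ (4 * (b:ℝ) ^ 2) ^ N * (b:ℝ) ^ (-((p : ℝ) * (2 - α) * L)) := by positivity
    calc K = ((4 * (b:ℝ) ^ 2) ^ N * (b:ℝ) ^ (-((p : ℝ) * (2 - α) * L))) * 1 := by rw [mul_one]
      _ ≤ ((4 * (b:ℝ) ^ 2) ^ N * (b:ℝ) ^ (-((p : ℝ) * (2 - α) * L))) * ((L:ℝ) + 1) ^ (8 * p) :=
          mul_le_mul_of_nonneg_left hL1 h8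
      _ = _ := by ring
  calc K + V ≤ (4 * (b:ℝ) ^ 2) ^ N * ((L:ℝ) + 1) ^ (8 * p) * (b:ℝ) ^ (-((p : ℝ) * (2 - α) * L)) +
        C2 * ((L:ℝ) + 1) ^ (8 * p) * (b:ℝ) ^ (-((p:ℝ) * (2 - α) * L)) := add_le_add hKle hvb
    _ = _ := by ring

end Pool.Agent.W641.WL
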